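import Pool.Agent.Helper33.DP3.Sheet

/-!
# Version 4 (MP_fcb106_co): errors inside the fractional theorem, exponent 6

The deficits of a state are split into row deficits and column deficits, both one-sided, in the
class `Cl`. They pass through the fractional closure theorem (row T1E), so that a step with two
smaller graphs costs only a bounded rounding error (row BF), and every other step is free.
-/

set_option autoImplicit false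

namespace Pool.Agent.Helper63.D4

open Finset Pool.Agent.Helper33.DP

/-- The class of the deficit vectors. -/
def Cl {w : ℕ} (e : Fin w → ℝ) : Prop :=
  (∀ x, 0 ≤ e x) ∧ ∀ S : Finset (Fin w), ∑ x ∈ S, e x ≤ 2 * S.card * (2 * w - S.card : ℝ)

/-- The scale: the potential is at most `1 / g4 w m`, for a graph with `m` edges. -/
def g4 (w m : ℕ) : ℝ := 8 * w + 5 * m

/-- The good states of a gap. -/
def Good4 {w : ℕ} (G : Gr w) (μ : Fin w → Fin w → ℕ) : Prop :=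
  (∀ a b, (a, b) ∉ G → μ a b = 0) ∧
  ∃ R C : Fin w → Fin w → ℝ, (∀ a, Cl (R a)) ∧ (∀ b, Cl (fun a => C a b)) ∧
    Bdd G (fun a b => (μ a b : ℝ) + R a b + C a b) (1 / g4 w G.card)

/-! ### the rows: the class -/

/-- CL1, averaging by a doubly stochastic matrix. -/
def ST_CL1 : Prop :=
  ∀ (w : ℕ) (P : Fin w → Fin w → ℝ) (g : Fin w → ℝ), (∀ x b, 0 ≤ P x b) →
    (∀ x, ∑ b, P x b = 1) → (∀ b, ∑ x, P x b = 1) → Cl g → Cl (fun x => ∑ b, P x b * g b)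

/-- CL2, convex combinations. -/
def ST_CL2 : Prop :=
  ∀ (w : ℕ) (c : Fin w → ℝ) (g : Fin w → Fin w → ℝ), (∀ b, 0 ≤ c b) → ∑ b, c b = 1 →
    (∀ b, Cl (g b)) → Cl (fun a => ∑ b, c b * g b a)

/-- CL3, positive parts. -/
def ST_CL3 : Prop :=
  ∀ (w : ℕ) (h : Fin w → ℝ),
    (∀ S : Finset (Fin w), ∑ x ∈ S, h x ≤ 2 * S.card * (2 * w - S.card : ℝ)) →
    Cl (fun x => max (h x) 0)

/-- CL4, the new column deficits in a block `T` with `n` elements. -/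
def ST_CL4 : Prop :=
  ∀ (w : ℕ) (T E : Finset (Fin w)) (q : Fin w → ℝ) (ν : Fin w → Fin w → ℝ), Cl q →
    E.card = T.card → 1 ≤ T.card → (∀ a ∈ E, ∀ x ∈ T, |ν a x| ≤ 1) →
    (∀ a ∈ E, ∑ x ∈ T, ν a x = 0) →
    Cl (fun x => if x ∈ T then max ((∑ a ∈ E, q a) / T.card + ∑ a ∈ E, ν a x) 0 else 0)

/-- LR4, feedback rounding. -/
def ST_LR4 : Prop :=
  ∀ (w : ℕ) (g : Fin w → ℝ) (y : Fin w → Fin w → ℝ) (n : Fin w → ℕ), Cl g →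
    (∀ b x, 0 ≤ y b x) → (∀ b, ∑ x, y b x = n b) →
    ∃ y' : Fin w → Fin w → ℕ, (∀ b, ∑ x, y' b x = n b) ∧ (∀ b x, |(y' b x : ℝ) - y b x| < 1) ∧
      (∀ b x, y b x = 0 → y' b x = 0) ∧
      ∀ S : Finset (Fin w), ∑ x ∈ S, (g x + ∑ b, (y b x - (y' b x : ℝ))) ≤
        2 * S.card * (2 * w - S.card : ℝ)

/-- BF, rounding of a routing with bounded errors on both sides (Beck and Fiala). -/
def ST_BF : Prop :=
  ∀ (w : ℕ) (z : Fin w → Fin w → Fin w → ℝ) (n : Fin w → Fin w → ℕ), (∀ a x b, 0 ≤ z a x b) →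
    (∀ a b, ∑ x, z a x b = n a b) →
    ∃ z' : Fin w → Fin w → Fin w → ℕ, (∀ a b, ∑ x, z' a x b = n a b) ∧
      (∀ a x b, z a x b = 0 → z' a x b = 0) ∧
      (∀ a x, |∑ b, (z' a x b : ℝ) - ∑ b, z a x b| ≤ 4) ∧
      ∀ x b, |∑ a, (z' a x b : ℝ) - ∑ a, z a x b| ≤ 4

/-! ### the rows: the fractional part -/

/-- T1E, the fractional closure theorem with deficits. -/
def ST_T1E : Prop :=
  ∀ (w : ℕ) (G G₁ G₂ : Gr w) (μ R C : Fin w → Fin w → ℝ) (β β' : ℝ), 1 ≤ w → IsCore G₁ →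
    IsCore G₂ → comp G₁ G₂ ⊆ G → (∀ a b, (a, b) ∈ G → 0 < μ a b) → (∀ a, Cl (R a)) →
    (∀ b, Cl (fun a => C a b)) → Bdd G (fun a b => μ a b + R a b + C a b) β → β < β' →
    ∃ (z : Fin w → Fin w → Fin w → ℝ) (R₁ C₁ R₂ C₂ : Fin w → Fin w → ℝ),
      (∀ a x b, 0 ≤ z a x b) ∧
      (∀ a x b, ¬ ((a, x) ∈ G₁ ∧ (x, b) ∈ G₂) → z a x b = 0) ∧
      (∀ a b, (a, b) ∈ comp G₁ G₂ → ∑ x, z a x b = μ a b) ∧
      (∀ a, Cl (R₁ a)) ∧ (∀ x, Cl (fun a => C₁ a x)) ∧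
      (∀ x, Cl (R₂ x)) ∧ (∀ b, Cl (fun x => C₂ x b)) ∧
      Bdd G₁ (fun a x => ∑ b, z a x b + R₁ a x + C₁ a x) β' ∧
      Bdd G₂ (fun x b => ∑ a, z a x b + R₂ x b + C₂ x b) β'

/-- The blocks of the columns, when `G₁` is as large as `G`. -/
structure Blk {w : ℕ} (G G₁ G₂ : Gr w) (T E : Fin w → Finset (Fin w)) : Prop where
  mem : ∀ x b, (x, b) ∈ G₂ → x ∈ T b
  card : ∀ b, (E b).card = (T b).card
  pos : ∀ b, 1 ≤ (T b).card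
  eqE : ∀ x b b', (x, b) ∈ G₂ → (x, b') ∈ G₂ → E b = E b'
  left : ∀ a b, a ∈ E b → (a, b) ∈ G
  right : ∀ a x b, (a, b) ∈ G → x ∈ T b → (a, x) ∈ G₁

/-- BL, the blocks. -/
def ST_BL : Prop :=
  ∀ (w : ℕ) (G G₁ G₂ : Gr w), IsCore G₁ → IsCore G₂ → comp G₁ G₂ = G →
    (∀ a x b, (a, b) ∈ G → (x, b) ∈ G₂ → (a, x) ∈ G₁) →
    ∃ T E : Fin w → Finset (Fin w), Blk G G₁ G₂ T E ∧
      ∀ (m : Fin w → Fin w → ℝ) (β : ℝ), Bdd G m β →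
        ∑ b, ((T b).card : ℝ) / ∑ a ∈ E b, m a b ≤ β

/-- PEX4, the choice of the routing matrix. -/
def ST_PEX4 : Prop :=
  ∀ (w : ℕ) (G₂ : Gr w) (s e : Fin w → ℝ) (n : Fin w → ℕ) (β β' : ℝ), 1 ≤ w → IsCore G₂ →
    (∀ b, 0 < s b) → (∀ b, 0 ≤ e b) → (∀ b, (univ.filter (fun x => (x, b) ∈ G₂)).card ≤ n b) →
    ∑ b, (n b : ℝ) / (s b + n b * e b) ≤ β → β < β' →
    ∃ P, DS G₂ P ∧ Bdd G₂ (fun x b => P x b * s b + e b) β'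

/-- MB, the main step when `G₁` is as large as `G`. -/
def ST_MB : Prop :=
  ∀ (w : ℕ) (G G₁ G₂ : Gr w) (μ : Fin w → Fin w → ℕ) (R C P : Fin w → Fin w → ℝ)
    (T E : Fin w → Finset (Fin w)) (β : ℝ), IsCore G₁ → IsCore G₂ → comp G₁ G₂ = G →
    (∀ a x b, (a, b) ∈ G → (x, b) ∈ G₂ → (a, x) ∈ G₁) → Blk G G₁ G₂ T E →
    (∀ a b, (a, b) ∉ G → μ a b = 0) → (∀ a, Cl (R a)) → (∀ b, Cl (fun a => C a b)) →
    Bdd G (fun a b => (μ a b : ℝ) + R a b + C a b) β → DS G₂ P →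
    ∃ z, Route G₁ G₂ μ z ∧
      (∃ R₁ C₁ : Fin w → Fin w → ℝ, (∀ a, Cl (R₁ a)) ∧ (∀ x, Cl (fun a => C₁ a x)) ∧
        Bdd G₁ (fun a x => ((∑ b, z a x b : ℕ) : ℝ) + R₁ a x + C₁ a x) β) ∧
      ∃ R₂ C₂ : Fin w → Fin w → ℝ, (∀ x, Cl (R₂ x)) ∧ (∀ b, Cl (fun x => C₂ x b)) ∧
        ∀ x b, (x, b) ∈ G₂ →
          P x b * (∑ a ∈ E b, (μ a b : ℝ)) + (∑ a ∈ E b, (R a b + C a b)) / (T b).card ≤
            ((∑ a, z a x b : ℕ) : ℝ) + R₂ x b + C₂ x b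

/-! ### the rows: the cases -/

/-- GB4, what a good state gives. -/
def ST_GB4 : Prop :=
  ∀ (w : ℕ) (G : Gr w) (μ : Fin w → Fin w → ℕ), 1 ≤ w → IsCore G → Good4 G μ →
    ∀ a b, (a, b) ∈ G → 1 ≤ μ a b

/-- The conclusion of a step. -/
def StepC4 {w : ℕ} (G₁ G₂ : Gr w) (μ : Fin w → Fin w → ℕ) : Prop :=
  ∃ z, Route G₁ G₂ μ z ∧ Good4 G₁ (fun a x => ∑ b, z a x b) ∧ Good4 G₂ (fun x b => ∑ a, z a x b)

/-- Case A. -/
def ST_A4 : Prop :=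
  ∀ (w : ℕ) (G G₁ G₂ : Gr w) (μ : Fin w → Fin w → ℕ), 1 ≤ w → IsCore G → IsCore G₁ → IsCore G₂ →
    comp G₁ G₂ ⊆ G → Good4 G μ → G₁.card < G.card → G₂.card < G.card → StepC4 G₁ G₂ μ

/-- Case B. -/
def ST_B4 : Prop :=
  ∀ (w : ℕ) (G G₁ G₂ : Gr w) (μ : Fin w → Fin w → ℕ), 1 ≤ w → IsCore G → IsCore G₁ → IsCore G₂ →
    comp G₁ G₂ ⊆ G → Good4 G μ → G₁.card = G.card → G₂.card < G.card → StepC4 G₁ G₂ μ

/-- Case B transposed. -/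
def ST_BT4 : Prop :=
  ∀ (w : ℕ) (G G₁ G₂ : Gr w) (μ : Fin w → Fin w → ℕ), 1 ≤ w → IsCore G → IsCore G₁ → IsCore G₂ →
    comp G₁ G₂ ⊆ G → Good4 G μ → G₁.card < G.card → G₂.card = G.card → StepC4 G₁ G₂ μ

/-- Case C. -/
def ST_C4 : Prop :=
  ∀ (w : ℕ) (G G₁ G₂ : Gr w) (μ : Fin w → Fin w → ℕ), 1 ≤ w → IsCore G → IsCore G₁ → IsCore G₂ →
    comp G₁ G₂ ⊆ G → Good4 G μ → G₁.card = G.card → G₂.card = G.card → StepC4 G₁ G₂ μ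

/-- START4, the complete graph. -/
def ST_START4 : Prop :=
  ∀ w : ℕ, 1 ≤ w → Good4 (univ : Gr w) (fun _ _ => 5 * w ^ 3 + 8 * w ^ 2)

/-- S4, the strategy theorem. -/
def ST_S4 : Prop := ∀ w : ℕ, 1 ≤ w → ∃ Good, Strat w (5 * w ^ 5 + 8 * w ^ 4) Good

/-- The final theorem. -/
def ST_FINAL4 : Prop :=
  ∀ w : ℕ, 1 ≤ w → Pool.Agent.Helper3.DW.Suffices w (w ^ 6 + 12 * w ^ 5)

end Pool.Agent.Helper63.D4
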