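import Pool.Agent.Helper14.PL.T1
import Pool.Agent.Helper63.D4.Sheet

/-! Row T1E of the sheet D4 (MP_fcb106_co): the fractional closure theorem with deficits. -/

set_option autoImplicit false

namespace Pool.Agent.Helper63.D4

open Finset Pool.Agent.Helper33.DP Pool.Agent.Helper14.PL

/-- the tangent of a concave function -/
theorem conc {t D h e : ℝ} (ht : 0 ≤ t) (hD : 0 < D) (hh : 0 < h) (he : 0 ≤ e) :
    t * (t * h + e)⁻¹ ≤ D * (D * h + e)⁻¹ + e * (t - D) * ((D * h + e) ^ 2)⁻¹ := by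
  have h1 : 0 < D * h + e := by positivity
  rcases ht.eq_or_lt with h0 | h0
  · rw [← h0]
    have e1 : D * (D * h + e)⁻¹ + e * (0 - D) * ((D * h + e) ^ 2)⁻¹ =
        D * (D * h) * ((D * h + e) ^ 2)⁻¹ := by
      field_simp
      ring
    rw [zero_mul, e1]
    positivity
  · have h2 : 0 < t * h + e := by positivity
    have h3 : D * (D * h + e)⁻¹ + e * (t - D) * ((D * h + e) ^ 2)⁻¹ - t * (t * h + e)⁻¹ =
        e * h * (t - D) ^ 2 * ((D * h + e) ^ 2 * (t * h + e))⁻¹ := by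
      field_simp
      ring
    have h4 : 0 ≤ e * h * (t - D) ^ 2 * ((D * h + e) ^ 2 * (t * h + e))⁻¹ := by positivity
    linarith

/-- the sum over the middle vertices -/
theorem key_sum {w : ℕ} (p t : Fin w → ℝ) (m e : ℝ) (hp : ∀ x, 0 ≤ p x) (hp1 : ∑ x, p x = 1)
    (ht : ∀ x, 0 ≤ t x) (he : 0 ≤ e) (hm : 0 < ∑ x, p x * t x → 0 < m) :
    ∑ x, p x * (t x * (t x * (m / ∑ y, p y * t y) + e)⁻¹) ≤ (∑ y, p y * t y) * (m + e)⁻¹ := by
  have h0 : 0 ≤ ∑ y, p y * t y := sum_nonneg fun y _ => mul_nonneg (hp y) (ht y)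
  rcases h0.eq_or_lt with h | h
  · have h1 : ∀ x, p x * t x = 0 := by
      intro x
      exact (sum_eq_zero_iff_of_nonneg fun y _ => mul_nonneg (hp y) (ht y)).1 h.symm x (mem_univ x)
    rw [← h, zero_mul]
    refine le_of_eq (sum_eq_zero fun x _ => ?_)
    rw [← mul_assoc, h1 x, zero_mul]
  · have hmp := hm h
    obtain ⟨q, hq⟩ : ∃ q, q = ∑ y, p y * t y := ⟨_, rfl⟩
    rw [← hq] at h ⊢
    have hh : 0 < m / q := div_pos hmp h
    have e1 : q * (m / q) = m := by field_simp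
    calc ∑ x, p x * (t x * (t x * (m / q) + e)⁻¹)
        ≤ ∑ x, p x * (q * (m + e)⁻¹ + e * (t x - q) * ((m + e) ^ 2)⁻¹) := by
          refine sum_le_sum fun x _ => mul_le_mul_of_nonneg_left ?_ (hp x)
          have := conc (ht x) h hh he
          rwa [e1] at this
      _ = (∑ x, p x) * (q * (m + e)⁻¹) +
            e * ((∑ x, p x * t x) - (∑ x, p x) * q) * ((m + e) ^ 2)⁻¹ := by
          rw [sum_mul, mul_sub, sub_mul, mul_sum, sum_mul, sum_mul, mul_sum, sum_mul,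
            ← sum_sub_distrib, ← sum_add_distrib]
          refine sum_congr rfl fun x _ => ?_
          ring
      _ = q * (m + e)⁻¹ := by
          rw [hp1, ← hq]
          ring

section key

variable {w : ℕ} {G G₁ G₂ : Gr w} {μ ε D₁ D₂ : Fin w → Fin w → ℝ} {β : ℝ}

/-- the bound on the left side -/
theorem left_e (h1 : ST_DS1) (h2 : ST_DS2) (hcomp : comp G₁ G₂ ⊆ G)
    (hμ : ∀ a b, (a, b) ∈ G → 0 < μ a b) (hε : ∀ a b, 0 ≤ ε a b)
    (hB : Bdd G (fun a b => μ a b + ε a b) β)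
    (hD₁ : DS G₁ D₁) (hD₂ : DS G₂ D₂) (hp₁ : PosOn G₁ D₁) (hp₂ : PosOn G₂ D₂) :
    ∑ a, ∑ x, D₁ a x * (∑ b, rt μ D₁ D₂ a x b + ∑ b, D₂ x b * ε a b)⁻¹ ≤ β := by
  have hD : DS (comp G₁ G₂) (fun a b => ∑ x, D₁ a x * D₂ x b) := h2 w G₁ G₂ D₁ D₂ hD₁ hD₂
  have hDG : DS G (fun a b => ∑ x, D₁ a x * D₂ x b) :=
    ⟨hD.nonneg, hD.row, hD.col, fun a b hab => hD.supp a b (fun h => hab (hcomp h))⟩
  have hb := h1 w G _ _ β hB hDG
  refine le_trans ?_ hb
  have step : ∀ a x, D₁ a x * (∑ b, rt μ D₁ D₂ a x b + ∑ b, D₂ x b * ε a b)⁻¹ ≤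
      ∑ b, D₂ x b * (D₁ a x * (D₁ a x * (μ a b / ∑ y, D₂ y b * D₁ a y) + ε a b)⁻¹) := by
    intro a x
    by_cases hax : (a, x) ∈ G₁
    · have hd := hp₁ a x hax
      have e1 : ∑ b, rt μ D₁ D₂ a x b + ∑ b, D₂ x b * ε a b =
          ∑ b, D₂ x b * (D₁ a x * (μ a b / ∑ y, D₂ y b * D₁ a y) + ε a b) := by
        rw [← sum_add_distrib]
        refine sum_congr rfl fun b _ => ?_
        unfold rt
        rw [sum_congr rfl fun y _ => mul_comm (D₁ a y) (D₂ y b)]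
        ring
      rw [e1]
      have hj := inv_sum_le (univ : Finset (Fin w)) (fun b => D₂ x b)
        (fun b => D₁ a x * (μ a b / ∑ y, D₂ y b * D₁ a y) + ε a b)
        (fun b _ => hD₂.nonneg x b) (hD₂.row x) (by
          intro b _ hb
          have hxb : (x, b) ∈ G₂ := by
            by_contra hcon
            have hb' : 0 < D₂ x b := hb
            rw [hD₂.supp x b hcon] at hb'
            exact lt_irrefl _ hb'
          have hq := prod_pos hD₁ hD₂ hp₁ hp₂ hax hxb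
          rw [sum_congr rfl fun y _ => mul_comm (D₁ a y) (D₂ y b)] at hq
          have := mul_pos hd (div_pos (hμ a b (hcomp (mem_comp.mpr ⟨x, hax, hxb⟩))) hq)
          have := hε a b
          show 0 < D₁ a x * (μ a b / ∑ y, D₂ y b * D₁ a y) + ε a b
          linarith)
      calc D₁ a x * (∑ b, D₂ x b * (D₁ a x * (μ a b / ∑ y, D₂ y b * D₁ a y) + ε a b))⁻¹
          ≤ D₁ a x * ∑ b, D₂ x b * (D₁ a x * (μ a b / ∑ y, D₂ y b * D₁ a y) + ε a b)⁻¹ :=
            mul_le_mul_of_nonneg_left hj hd.le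
        _ = _ := by
            rw [mul_sum]
            refine sum_congr rfl fun b _ => ?_
            ring
    · rw [hD₁.supp a x hax, zero_mul]
      refine le_of_eq (Eq.symm (sum_eq_zero fun b _ => ?_))
      rw [zero_mul, mul_zero]
  calc ∑ a, ∑ x, D₁ a x * (∑ b, rt μ D₁ D₂ a x b + ∑ b, D₂ x b * ε a b)⁻¹
      ≤ ∑ a, ∑ x, ∑ b, D₂ x b *
          (D₁ a x * (D₁ a x * (μ a b / ∑ y, D₂ y b * D₁ a y) + ε a b)⁻¹) :=
        sum_le_sum fun a _ => sum_le_sum fun x _ => step a x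
    _ = ∑ a, ∑ b, ∑ x, D₂ x b *
          (D₁ a x * (D₁ a x * (μ a b / ∑ y, D₂ y b * D₁ a y) + ε a b)⁻¹) :=
        sum_congr rfl fun a _ => sum_comm
    _ ≤ ∑ a, ∑ b, (∑ x, D₁ a x * D₂ x b) * (μ a b + ε a b)⁻¹ := by
        refine sum_le_sum fun a _ => sum_le_sum fun b _ => ?_
        have hk := key_sum (fun x => D₂ x b) (fun x => D₁ a x) (μ a b) (ε a b)
          (fun x => hD₂.nonneg x b) (hD₂.col b) (fun x => hD₁.nonneg a x) (hε a b) (by
            intro hpos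
            by_contra hcon
            have hab : (a, b) ∉ G := fun h => hcon (hμ a b h)
            have := hDG.supp a b hab
            rw [sum_congr rfl fun y _ => mul_comm (D₁ a y) (D₂ y b)] at this
            rw [this] at hpos
            exact lt_irrefl _ hpos)
        rw [sum_congr rfl fun y _ => mul_comm (D₁ a y) (D₂ y b)]
        exact hk

/-- the bound on the right side -/
theorem right_e (h1 : ST_DS1) (h2 : ST_DS2) (hcomp : comp G₁ G₂ ⊆ G)
    (hμ : ∀ a b, (a, b) ∈ G → 0 < μ a b) (hε : ∀ a b, 0 ≤ ε a b)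
    (hB : Bdd G (fun a b => μ a b + ε a b) β)
    (hD₁ : DS G₁ D₁) (hD₂ : DS G₂ D₂) (hp₁ : PosOn G₁ D₁) (hp₂ : PosOn G₂ D₂) :
    ∑ x, ∑ b, D₂ x b * (∑ a, rt μ D₁ D₂ a x b + ∑ a, D₁ a x * ε a b)⁻¹ ≤ β := by
  have hD : DS (comp G₁ G₂) (fun a b => ∑ x, D₁ a x * D₂ x b) := h2 w G₁ G₂ D₁ D₂ hD₁ hD₂
  have hDG : DS G (fun a b => ∑ x, D₁ a x * D₂ x b) :=
    ⟨hD.nonneg, hD.row, hD.col, fun a b hab => hD.supp a b (fun h => hab (hcomp h))⟩
  have hb := h1 w G _ _ β hB hDG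
  refine le_trans ?_ hb
  have step : ∀ x b, D₂ x b * (∑ a, rt μ D₁ D₂ a x b + ∑ a, D₁ a x * ε a b)⁻¹ ≤
      ∑ a, D₁ a x * (D₂ x b * (D₂ x b * (μ a b / ∑ y, D₁ a y * D₂ y b) + ε a b)⁻¹) := by
    intro x b
    by_cases hxb : (x, b) ∈ G₂
    · have hd := hp₂ x b hxb
      have e1 : ∑ a, rt μ D₁ D₂ a x b + ∑ a, D₁ a x * ε a b =
          ∑ a, D₁ a x * (D₂ x b * (μ a b / ∑ y, D₁ a y * D₂ y b) + ε a b) := by
        rw [← sum_add_distrib]
        refine sum_congr rfl fun a _ => ?_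
        unfold rt
        ring
      rw [e1]
      have hj := inv_sum_le (univ : Finset (Fin w)) (fun a => D₁ a x)
        (fun a => D₂ x b * (μ a b / ∑ y, D₁ a y * D₂ y b) + ε a b)
        (fun a _ => hD₁.nonneg a x) (hD₁.col x) (by
          intro a _ ha
          have hax : (a, x) ∈ G₁ := by
            by_contra hcon
            have ha' : 0 < D₁ a x := ha
            rw [hD₁.supp a x hcon] at ha'
            exact lt_irrefl _ ha'
          have hq := prod_pos hD₁ hD₂ hp₁ hp₂ hax hxb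
          have := mul_pos hd (div_pos (hμ a b (hcomp (mem_comp.mpr ⟨x, hax, hxb⟩))) hq)
          have := hε a b
          show 0 < D₂ x b * (μ a b / ∑ y, D₁ a y * D₂ y b) + ε a b
          linarith)
      calc D₂ x b * (∑ a, D₁ a x * (D₂ x b * (μ a b / ∑ y, D₁ a y * D₂ y b) + ε a b))⁻¹
          ≤ D₂ x b * ∑ a, D₁ a x * (D₂ x b * (μ a b / ∑ y, D₁ a y * D₂ y b) + ε a b)⁻¹ :=
            mul_le_mul_of_nonneg_left hj hd.le
        _ = _ := by
            rw [mul_sum]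
            refine sum_congr rfl fun a _ => ?_
            ring
    · rw [hD₂.supp x b hxb, zero_mul]
      refine le_of_eq (Eq.symm (sum_eq_zero fun a _ => ?_))
      rw [zero_mul, mul_zero]
  calc ∑ x, ∑ b, D₂ x b * (∑ a, rt μ D₁ D₂ a x b + ∑ a, D₁ a x * ε a b)⁻¹
      ≤ ∑ x, ∑ b, ∑ a, D₁ a x *
          (D₂ x b * (D₂ x b * (μ a b / ∑ y, D₁ a y * D₂ y b) + ε a b)⁻¹) :=
        sum_le_sum fun x _ => sum_le_sum fun b _ => step x b
    _ = ∑ a, ∑ b, ∑ x, D₁ a x *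
          (D₂ x b * (D₂ x b * (μ a b / ∑ y, D₁ a y * D₂ y b) + ε a b)⁻¹) := by
        rw [sum_congr rfl fun x _ => sum_comm, sum_comm]
        exact sum_congr rfl fun a _ => sum_comm
    _ ≤ ∑ a, ∑ b, (∑ x, D₁ a x * D₂ x b) * (μ a b + ε a b)⁻¹ := by
        refine sum_le_sum fun a _ => sum_le_sum fun b _ => ?_
        exact key_sum (fun x => D₁ a x) (fun x => D₂ x b) (μ a b) (ε a b)
          (fun x => hD₁.nonneg a x) (hD₁.row a) (fun x => hD₂.nonneg x b) (hε a b) (by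
            intro hpos
            by_contra hcon
            have hab : (a, b) ∉ G := fun h => hcon (hμ a b h)
            have := hDG.supp a b hab
            have hpos' : 0 < ∑ x, D₁ a x * D₂ x b := hpos
            rw [this] at hpos'
            exact lt_irrefl _ hpos')

end key

theorem Cl_mix {w : ℕ} {e e' : Fin w → ℝ} (h : Cl e) (h' : Cl e') {s t : ℝ} (hs : 0 ≤ s)
    (ht : 0 ≤ t) (hst : s + t = 1) : Cl (fun x => s * e x + t * e' x) := by
  refine ⟨fun x => add_nonneg (mul_nonneg hs (h.1 x)) (mul_nonneg ht (h'.1 x)), fun S => ?_⟩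
  rw [sum_add_distrib, ← mul_sum, ← mul_sum]
  have h1 := mul_le_mul_of_nonneg_left (h.2 S) hs
  have h2 := mul_le_mul_of_nonneg_left (h'.2 S) ht
  have h3 : s * (2 * S.card * (2 * w - S.card : ℝ)) + t * (2 * S.card * (2 * w - S.card : ℝ)) =
      2 * S.card * (2 * w - S.card : ℝ) := by
    rw [← add_mul, hst, one_mul]
  linarith

/-- the points of the minimax argument: a routing and four matrices of deficits -/
abbrev EE (w : ℕ) : Type := (Fin w → Fin w → Fin w → ℝ) × (Fin 4 → Fin w → Fin w → ℝ)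

/-- the admissible points -/
def ZE {w : ℕ} (G₁ G₂ : Gr w) (μ : Fin w → Fin w → ℝ) : Set (EE w) :=
  {u | u.1 ∈ ZZ G₁ G₂ μ ∧ (∀ a, Cl (u.2 0 a)) ∧ (∀ x, Cl (fun a => u.2 1 a x)) ∧
    (∀ x, Cl (u.2 2 x)) ∧ ∀ b, Cl (fun x => u.2 3 x b)}

theorem ZE_convex {w : ℕ} (G₁ G₂ : Gr w) (μ : Fin w → Fin w → ℝ) : Convex ℝ (ZE G₁ G₂ μ) := by
  intro u hu u' hu' s t hs ht hst
  refine ⟨ZZ_convex G₁ G₂ μ hu.1 hu'.1 hs ht hst, ?_, ?_, ?_, ?_⟩
  · intro a
    exact Cl_mix (hu.2.1 a) (hu'.2.1 a) hs ht hst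
  · intro x
    exact Cl_mix (hu.2.2.1 x) (hu'.2.2.1 x) hs ht hst
  · intro x
    exact Cl_mix (hu.2.2.2.1 x) (hu'.2.2.2.1 x) hs ht hst
  · intro b
    exact Cl_mix (hu.2.2.2.2 b) (hu'.2.2.2.2 b) hs ht hst

theorem ZE_left {w : ℕ} {G₁ G₂ : Gr w} {μ : Fin w → Fin w → ℝ} (h2 : IsCore G₂) {u : EE w}
    (hu : u ∈ ZE G₁ G₂ μ) {a x : Fin w} (h : (a, x) ∈ G₁) :
    0 < ∑ b, u.1 a x b + u.2 0 a x + u.2 1 a x := by
  have e1 := ZZ_left h2 hu.1 h
  have e2 := (hu.2.1 a).1 x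
  have e3 : 0 ≤ u.2 1 a x := (hu.2.2.1 x).1 a
  linarith

theorem ZE_right {w : ℕ} {G₁ G₂ : Gr w} {μ : Fin w → Fin w → ℝ} (h1 : IsCore G₁) {u : EE w}
    (hu : u ∈ ZE G₁ G₂ μ) {x b : Fin w} (h : (x, b) ∈ G₂) :
    0 < ∑ a, u.1 a x b + u.2 2 x b + u.2 3 x b := by
  have e1 := ZZ_right h1 hu.1 h
  have e2 := (hu.2.2.2.1 x).1 b
  have e3 : 0 ≤ u.2 3 x b := (hu.2.2.2.2 b).1 x
  linarith

open Classical in
/-- the potentials -/
noncomputable def phE {w : ℕ} (G₁ G₂ : Gr w) :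
    Equiv.Perm (Fin w) ⊕ Equiv.Perm (Fin w) → EE w → ℝ
  | Sum.inl σ, u => if PM G₁ σ then
      ∑ i, (∑ b, u.1 i (σ i) b + u.2 0 i (σ i) + u.2 1 i (σ i))⁻¹ else 0
  | Sum.inr σ, u => if PM G₂ σ then
      ∑ i, (∑ a, u.1 a i (σ i) + u.2 2 i (σ i) + u.2 3 i (σ i))⁻¹ else 0

theorem phE_convex {w : ℕ} {G₁ G₂ : Gr w} (μ : Fin w → Fin w → ℝ) (h1 : IsCore G₁)
    (h2 : IsCore G₂) (j : Equiv.Perm (Fin w) ⊕ Equiv.Perm (Fin w)) :
    ConvexOn ℝ (ZE G₁ G₂ μ) (phE G₁ G₂ j) := by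
  refine ⟨ZE_convex G₁ G₂ μ, ?_⟩
  intro u hu u' hu' s t hs ht hst
  rcases j with σ | σ
  · by_cases hσ : PM G₁ σ
    · simp only [phE, if_pos hσ, smul_eq_mul, mul_sum, ← sum_add_distrib]
      refine sum_le_sum (fun i _ => ?_)
      have e : ∑ b, (s • u + t • u').1 i (σ i) b + (s • u + t • u').2 0 i (σ i) +
            (s • u + t • u').2 1 i (σ i) =
          s * (∑ b, u.1 i (σ i) b + u.2 0 i (σ i) + u.2 1 i (σ i)) +
            t * (∑ b, u'.1 i (σ i) b + u'.2 0 i (σ i) + u'.2 1 i (σ i)) := by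
        have e1 : ∑ b, (s • u + t • u').1 i (σ i) b =
            s * ∑ b, u.1 i (σ i) b + t * ∑ b, u'.1 i (σ i) b := by
          rw [mul_sum, mul_sum, ← sum_add_distrib]
          rfl
        have e2 : (s • u + t • u').2 0 i (σ i) = s * u.2 0 i (σ i) + t * u'.2 0 i (σ i) := rfl
        have e3 : (s • u + t • u').2 1 i (σ i) = s * u.2 1 i (σ i) + t * u'.2 1 i (σ i) := rfl
        rw [e1, e2, e3]
        ring
      rw [e]
      exact inv_convex (ZE_left h2 hu (hσ i)) (ZE_left h2 hu' (hσ i)) hs ht hst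
    · simp [phE, if_neg hσ]
  · by_cases hσ : PM G₂ σ
    · simp only [phE, if_pos hσ, smul_eq_mul, mul_sum, ← sum_add_distrib]
      refine sum_le_sum (fun i _ => ?_)
      have e : ∑ a, (s • u + t • u').1 a i (σ i) + (s • u + t • u').2 2 i (σ i) +
            (s • u + t • u').2 3 i (σ i) =
          s * (∑ a, u.1 a i (σ i) + u.2 2 i (σ i) + u.2 3 i (σ i)) +
            t * (∑ a, u'.1 a i (σ i) + u'.2 2 i (σ i) + u'.2 3 i (σ i)) := by
        have e1 : ∑ a, (s • u + t • u').1 a i (σ i) =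
            s * ∑ a, u.1 a i (σ i) + t * ∑ a, u'.1 a i (σ i) := by
          rw [mul_sum, mul_sum, ← sum_add_distrib]
          rfl
        have e2 : (s • u + t • u').2 2 i (σ i) = s * u.2 2 i (σ i) + t * u'.2 2 i (σ i) := rfl
        have e3 : (s • u + t • u').2 3 i (σ i) = s * u.2 3 i (σ i) + t * u'.2 3 i (σ i) := rfl
        rw [e1, e2, e3]
        ring
      rw [e]
      exact inv_convex (ZE_right h1 hu (hσ i)) (ZE_right h1 hu' (hσ i)) hs ht hst
    · simp [phE, if_neg hσ]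

/-- **T1E**, the fractional closure theorem with deficits -/
theorem T1E (hML : ST_ML) (h1 : ST_DS1) (h2 : ST_DS2) (h3 : ST_DS3) (h4 : ST_DS4)
    (hC1 : ST_CL1) (hC2 : ST_CL2) : ST_T1E := by
  classical
  intro w G G₁ G₂ μ R C β β' hw hG₁ hG₂ hcomp hμ hR hC hB hβ
  have hε : ∀ a b, 0 ≤ R a b + C a b := by
    intro a b
    have e1 := (hR a).1 b
    have e2 : 0 ≤ C a b := (hC b).1 a
    linarith
  have hB' : Bdd G (fun a b => μ a b + (R a b + C a b)) β := by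
    refine ⟨fun a b hab => ?_, fun σ hσ => ?_⟩
    · have := hB.pos a b hab
      show 0 < μ a b + (R a b + C a b)
      linarith
    · have := hB.le σ hσ
      simp only [add_assoc] at this
      exact this
  -- β is positive
  have hβ0 : 0 < β := by
    obtain ⟨σ₁, hσ₁⟩ := hG₁.ex
    obtain ⟨σ₂, hσ₂⟩ := hG₂.ex
    have hpm : PM G (σ₁.trans σ₂) := by
      intro i
      exact hcomp (mem_comp.mpr ⟨σ₁ i, hσ₁ i, hσ₂ (σ₁ i)⟩)
    refine lt_of_lt_of_le ?_ (hB.le _ hpm)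
    have : Nonempty (Fin w) := ⟨⟨0, hw⟩⟩
    exact sum_pos (fun i _ => inv_pos.mpr (hB.pos _ _ (hpm i))) univ_nonempty
  obtain ⟨k, hk⟩ : ∃ k : ℝ, k = (β' - β) / (2 * β') := ⟨_, rfl⟩
  have hβ'0 : 0 < β' := lt_trans hβ0 hβ
  have hk0 : 0 < k := by rw [hk]; exact div_pos (by linarith) (by linarith)
  have hkβ : k * β' = (β' - β) / 2 := by rw [hk]; field_simp
  have hk1 : k < 1 := by
    rw [hk, div_lt_one (by linarith)]; linarith
  have h1k : 0 < 1 - k := by linarith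
  have hβk : β / (1 - k) < β' := by
    rw [div_lt_iff₀ h1k]; nlinarith
  obtain ⟨u, hu, hφ⟩ := hML (Equiv.Perm (Fin w) ⊕ Equiv.Perm (Fin w))
    (EE w) (ZE G₁ G₂ μ) (phE G₁ G₂) (β / (1 - k)) β'
    (ZE_convex G₁ G₂ μ) (phE_convex μ hG₁ hG₂) hβk (by
      intro θ hθ hθ1
      rw [Fintype.sum_sum_type] at hθ1
      obtain ⟨D0₁, hD0₁, -⟩ := h4 w G₁ hw hG₁
      obtain ⟨D0₂, hD0₂, -⟩ := h4 w G₂ hw hG₂
      obtain ⟨D₁, hD₁, hf₁⟩ := norm_DS h3 G₁ ⟨D0₁, hD0₁⟩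
        (fun σ => if PM G₁ σ then θ (Sum.inl σ) else 0)
        (fun σ => by split_ifs; exact hθ _; exact le_rfl) (fun σ hσ => if_neg hσ)
      obtain ⟨D₂, hD₂, hf₂⟩ := norm_DS h3 G₂ ⟨D0₂, hD0₂⟩
        (fun σ => if PM G₂ σ then θ (Sum.inr σ) else 0)
        (fun σ => by split_ifs; exact hθ _; exact le_rfl) (fun σ hσ => if_neg hσ)
      obtain ⟨D₁', hD₁', hp₁, hle₁⟩ := pos_mix h4 hw hG₁ hD₁ hk0 hk1
      obtain ⟨D₂', hD₂', hp₂, hle₂⟩ := pos_mix h4 hw hG₂ hD₂ hk0 hk1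
      obtain ⟨v, hv⟩ : ∃ v : EE w, v = (rt μ D₁' D₂',
        ![fun a x => ∑ b, D₂' x b * R a b, fun a x => ∑ b, D₂' x b * C a b,
          fun x b => ∑ a, D₁' a x * R a b, fun x b => ∑ a, D₁' a x * C a b]) := ⟨_, rfl⟩
      have v1 : v.1 = rt μ D₁' D₂' := by rw [hv]
      have w0 : v.2 0 = fun a x => ∑ b, D₂' x b * R a b := by rw [hv]; rfl
      have w1 : v.2 1 = fun a x => ∑ b, D₂' x b * C a b := by rw [hv]; rfl
      have w2 : v.2 2 = fun x b => ∑ a, D₁' a x * R a b := by rw [hv]; rfl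
      have w3 : v.2 3 = fun x b => ∑ a, D₁' a x * C a b := by rw [hv]; rfl
      have hzz : v ∈ ZE G₁ G₂ μ := by
        refine ⟨?_, ?_, ?_, ?_, ?_⟩
        · rw [v1]
          refine ⟨fun a x b ha hb => ?_, fun a x b h => rt_zero hD₁' hD₂' h,
            fun a b h => rt_sum hD₁' hD₂' hp₁ hp₂ h⟩
          exact mul_pos (div_pos (hμ a b (hcomp (mem_comp.mpr ⟨x, ha, hb⟩)))
            (prod_pos hD₁' hD₂' hp₁ hp₂ ha hb)) (mul_pos (hp₁ a x ha) (hp₂ x b hb))
        · intro a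
          rw [w0]
          exact hC1 w D₂' (R a) hD₂'.nonneg hD₂'.row hD₂'.col (hR a)
        · intro x
          rw [w1]
          exact hC2 w (fun b => D₂' x b) (fun b a => C a b) (fun b => hD₂'.nonneg x b)
            (hD₂'.row x) hC
        · intro x
          rw [w2]
          exact hC2 w (fun a => D₁' a x) R (fun a => hD₁'.nonneg a x) (hD₁'.col x) hR
        · intro b
          rw [w3]
          exact hC1 w (fun x a => D₁' a x) (fun a => C a b) (fun x a => hD₁'.nonneg a x)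
            hD₁'.col hD₁'.row (hC b)
      have f1 : ∀ a x, ∑ b, v.1 a x b + v.2 0 a x + v.2 1 a x =
          ∑ b, rt μ D₁' D₂' a x b + ∑ b, D₂' x b * (R a b + C a b) := by
        intro a x
        rw [v1, w0, w1, add_assoc, ← sum_add_distrib]
        congr 1
        exact sum_congr rfl fun b _ => (mul_add _ _ _).symm
      have f2 : ∀ x b, ∑ a, v.1 a x b + v.2 2 x b + v.2 3 x b =
          ∑ a, rt μ D₁' D₂' a x b + ∑ a, D₁' a x * (R a b + C a b) := by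
        intro x b
        rw [v1, w2, w3, add_assoc, ← sum_add_distrib]
        congr 1
        exact sum_congr rfl fun a _ => (mul_add _ _ _).symm
      refine ⟨v, hzz, ?_⟩
      have hl := left_e h1 h2 hcomp hμ hε hB' hD₁' hD₂' hp₁ hp₂
      have hr := right_e h1 h2 hcomp hμ hε hB' hD₁' hD₂' hp₁ hp₂
      have nn1 : ∀ a x, 0 ≤ (∑ b, v.1 a x b + v.2 0 a x + v.2 1 a x)⁻¹ := by
        intro a x
        have e1 : 0 ≤ ∑ b, v.1 a x b := sum_nonneg fun b _ => ZZ_nonneg hzz.1 a x b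
        have e2 := (hzz.2.1 a).1 x
        have e3 : 0 ≤ v.2 1 a x := (hzz.2.2.1 x).1 a
        exact inv_nonneg.mpr (by linarith)
      have nn2 : ∀ x b, 0 ≤ (∑ a, v.1 a x b + v.2 2 x b + v.2 3 x b)⁻¹ := by
        intro x b
        have e1 : 0 ≤ ∑ a, v.1 a x b := sum_nonneg fun a _ => ZZ_nonneg hzz.1 a x b
        have e2 := (hzz.2.2.2.1 x).1 b
        have e3 : 0 ≤ v.2 3 x b := (hzz.2.2.2.2 b).1 x
        exact inv_nonneg.mpr (by linarith)
      have hl' : ∑ a, ∑ x, D₁ a x * (∑ b, v.1 a x b + v.2 0 a x + v.2 1 a x)⁻¹ ≤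
          β / (1 - k) := by
        rw [le_div_iff₀ h1k]
        refine le_trans ?_ hl
        rw [sum_mul]
        refine sum_le_sum (fun a _ => ?_)
        rw [sum_mul]
        refine sum_le_sum (fun x _ => ?_)
        have e1 := hle₁ a x
        rw [le_div_iff₀ h1k] at e1
        rw [← f1 a x]
        have e2 := mul_le_mul_of_nonneg_right e1 (nn1 a x)
        calc D₁ a x * (∑ b, v.1 a x b + v.2 0 a x + v.2 1 a x)⁻¹ * (1 - k)
            = D₁ a x * (1 - k) * (∑ b, v.1 a x b + v.2 0 a x + v.2 1 a x)⁻¹ := by ring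
          _ ≤ _ := e2
      have hr' : ∑ x, ∑ b, D₂ x b * (∑ a, v.1 a x b + v.2 2 x b + v.2 3 x b)⁻¹ ≤
          β / (1 - k) := by
        rw [le_div_iff₀ h1k]
        refine le_trans ?_ hr
        rw [sum_mul]
        refine sum_le_sum (fun x _ => ?_)
        rw [sum_mul]
        refine sum_le_sum (fun b _ => ?_)
        have e1 := hle₂ x b
        rw [le_div_iff₀ h1k] at e1
        rw [← f2 x b]
        have e2 := mul_le_mul_of_nonneg_right e1 (nn2 x b)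
        calc D₂ x b * (∑ a, v.1 a x b + v.2 2 x b + v.2 3 x b)⁻¹ * (1 - k)
            = D₂ x b * (1 - k) * (∑ a, v.1 a x b + v.2 2 x b + v.2 3 x b)⁻¹ := by ring
          _ ≤ _ := e2
      rw [Fintype.sum_sum_type]
      have s1 : ∑ σ, θ (Sum.inl σ) * phE G₁ G₂ (Sum.inl σ) v =
          (∑ σ, if PM G₁ σ then θ (Sum.inl σ) else 0) *
            ∑ a, ∑ x, D₁ a x * (∑ b, v.1 a x b + v.2 0 a x + v.2 1 a x)⁻¹ := by
        rw [← hf₁ (fun a x => (∑ b, v.1 a x b + v.2 0 a x + v.2 1 a x)⁻¹)]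
        refine sum_congr rfl (fun σ _ => ?_)
        by_cases hσ : PM G₁ σ
        · simp only [phE, if_pos hσ]
        · simp only [phE, if_neg hσ, mul_zero, zero_mul]
      have s2 : ∑ σ, θ (Sum.inr σ) * phE G₁ G₂ (Sum.inr σ) v =
          (∑ σ, if PM G₂ σ then θ (Sum.inr σ) else 0) *
            ∑ x, ∑ b, D₂ x b * (∑ a, v.1 a x b + v.2 2 x b + v.2 3 x b)⁻¹ := by
        rw [← hf₂ (fun x b => (∑ a, v.1 a x b + v.2 2 x b + v.2 3 x b)⁻¹)]
        refine sum_congr rfl (fun σ _ => ?_)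
        by_cases hσ : PM G₂ σ
        · simp only [phE, if_pos hσ]
        · simp only [phE, if_neg hσ, mul_zero, zero_mul]
      rw [s1, s2]
      have t1 : (∑ σ, if PM G₁ σ then θ (Sum.inl σ) else 0) ≤ ∑ σ, θ (Sum.inl σ) :=
        sum_le_sum (fun σ _ => by split_ifs; exact le_rfl; exact hθ _)
      have t2 : (∑ σ, if PM G₂ σ then θ (Sum.inr σ) else 0) ≤ ∑ σ, θ (Sum.inr σ) :=
        sum_le_sum (fun σ _ => by split_ifs; exact le_rfl; exact hθ _)
      have t3 : 0 ≤ (∑ σ, if PM G₁ σ then θ (Sum.inl σ) else 0) :=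
        sum_nonneg (fun σ _ => by split_ifs; exact hθ _; exact le_rfl)
      have t4 : 0 ≤ (∑ σ, if PM G₂ σ then θ (Sum.inr σ) else 0) :=
        sum_nonneg (fun σ _ => by split_ifs; exact hθ _; exact le_rfl)
      have hc : 0 ≤ β / (1 - k) := (div_pos hβ0 h1k).le
      have u1 := mul_le_mul_of_nonneg_left hl' t3
      have u2 := mul_le_mul_of_nonneg_left hr' t4
      have u3 : ((∑ σ, if PM G₁ σ then θ (Sum.inl σ) else 0) +
        (∑ σ, if PM G₂ σ then θ (Sum.inr σ) else 0)) * (β / (1 - k)) ≤ 1 * (β / (1 - k)) :=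
        mul_le_mul_of_nonneg_right (by linarith) hc
      linarith)
  refine ⟨u.1, u.2 0, u.2 1, u.2 2, u.2 3, ZZ_nonneg hu.1, hu.1.2.1, hu.1.2.2, hu.2.1,
    hu.2.2.1, hu.2.2.2.1, hu.2.2.2.2, ⟨fun a x h => ZE_left hG₂ hu h, ?_⟩,
    ⟨fun x b h => ZE_right hG₁ hu h, ?_⟩⟩
  · intro σ hσ
    have := hφ (Sum.inl σ)
    simp only [phE, if_pos hσ] at this
    exact this.le
  · intro σ hσ
    have := hφ (Sum.inr σ)
    simp only [phE, if_pos hσ] at this
    exact this.le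

end Pool.Agent.Helper63.D4
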